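import Mathlib
import Pool.Agent.P.MP_597c46_an.Char

/-!
Which convex sets are domains or ranges of subdifferentials and of maximally monotone operators:
exactly the countable unions of closed sets.
-/

namespace Pool.Agent.Results.MP_597c46_an.FsigmaChar

open Pool.Agent.P.MP_597c46_an.Char

theorem result (n : ℕ) (C : Set (E n)) (hne : C.Nonempty) (hC : Convex ℝ C) :
    List.TFAE [IsFsigma C,
      ∃ f : E n → WithTop ℝ, IsProperLscConvex f ∧ dom (subdiff f) = C,
      ∃ f : E n → WithTop ℝ, IsProperLscConvex f ∧ ran (subdiff f) = C,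
      ∃ A : E n → Set (E n), IsMaxMonotoneOp A ∧ dom A = C,
      ∃ A : E n → Set (E n), IsMaxMonotoneOp A ∧ ran A = C] :=
  char hne hC

end Pool.Agent.Results.MP_597c46_an.FsigmaChar
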