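import Mathlib
import Pool.Agent.P.MP_597c46_an.Core

/-!
Negative answer to Q1: for every n at least 2 some nonempty convex subset of Euclidean n-space is
neither the domain nor the range of the subdifferential of a proper lower semicontinuous convex
function.
-/

namespace Pool.Agent.Results.MP_597c46_an.Q1Subdiff

/-- The subdifferential of `f : ℝ^n → (-∞, +∞]` at `x`: all `u` with
`f x + ⟨u, y - x⟩ ≤ f y` for every `y`. -/
def subdiff {n : ℕ} (f : EuclideanSpace ℝ (Fin n) → WithTop ℝ) (x : EuclideanSpace ℝ (Fin n)) :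
    Set (EuclideanSpace ℝ (Fin n)) :=
  {u | ∀ y, f x + ((inner ℝ u (y - x) : ℝ) : WithTop ℝ) ≤ f y}

open Set Filter Topology in
theorem isClosed_graph {n : ℕ} (f : EuclideanSpace ℝ (Fin n) → WithTop ℝ)
    (hf : LowerSemicontinuous f) :
    IsClosed {p : EuclideanSpace ℝ (Fin n) × EuclideanSpace ℝ (Fin n) | p.2 ∈ subdiff f p.1} := by
  rw [← isOpen_compl_iff, isOpen_iff_mem_nhds]
  rintro ⟨x, u⟩ hp
  simp only [subdiff, mem_compl_iff, mem_ofPred_eq, not_forall, not_le] at hp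
  obtain ⟨y, hy⟩ := hp
  obtain ⟨r, hr⟩ : ∃ r : ℝ, f y = r := by
    cases h : f y with
    | top => rw [h] at hy; exact absurd hy not_top_lt
    | coe r => exact ⟨r, rfl⟩
  obtain ⟨c, hc1, hc2⟩ : ∃ c : ℝ, r - inner ℝ u (y - x) < c ∧ (c : WithTop ℝ) < f x := by
    cases h : f x with
    | top => exact ⟨r - inner ℝ u (y - x) + 1, by linarith, WithTop.coe_lt_top _⟩
    | coe s =>
      rw [h, hr, ← WithTop.coe_add, WithTop.coe_lt_coe] at hy
      exact ⟨(r - inner ℝ u (y - x) + s) / 2, by linarith, WithTop.coe_lt_coe.2 (by linarith)⟩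
  have h1 : ∀ᶠ p : EuclideanSpace ℝ (Fin n) × EuclideanSpace ℝ (Fin n) in 𝓝 (x, u),
      (c : WithTop ℝ) < f p.1 :=
    (continuous_fst.tendsto (x, u)).eventually (hf x c hc2)
  have h2 : ∀ᶠ p : EuclideanSpace ℝ (Fin n) × EuclideanSpace ℝ (Fin n) in 𝓝 (x, u),
      r - inner ℝ p.2 (y - p.1) < c := by
    have hcont : Continuous fun p : EuclideanSpace ℝ (Fin n) × EuclideanSpace ℝ (Fin n) =>
        r - inner ℝ p.2 (y - p.1) := by fun_prop
    exact hcont.continuousAt.eventually_lt continuousAt_const hc1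
  filter_upwards [h1, h2] with p hp1 hp2
  simp only [subdiff, mem_compl_iff, mem_ofPred_eq, not_forall, not_le]
  refine ⟨y, ?_⟩
  rw [hr]
  cases h : f p.1 with
  | top => simp
  | coe s =>
    rw [h, WithTop.coe_lt_coe] at hp1
    rw [← WithTop.coe_add, WithTop.coe_lt_coe]
    linarith

theorem result (n : ℕ) (hn : 2 ≤ n) :
    ∃ C : Set (EuclideanSpace ℝ (Fin n)),
      C.Nonempty ∧ Convex ℝ C ∧ Bornology.IsBounded C ∧ IsGδ C ∧
      ∀ f : EuclideanSpace ℝ (Fin n) → WithTop ℝ,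
        (∃ x, f x ≠ ⊤) →
        LowerSemicontinuous f →
        Convex ℝ {p : EuclideanSpace ℝ (Fin n) × ℝ | f p.1 ≤ (p.2 : WithTop ℝ)} →
        {x | (subdiff f x).Nonempty} ≠ C ∧ (⋃ x, subdiff f x) ≠ C := by
  refine ⟨Pool.Agent.P.MP_597c46_an.badSet n hn, Pool.Agent.P.MP_597c46_an.badSet_nonempty n hn,
    Pool.Agent.P.MP_597c46_an.badSet_convex n hn, Pool.Agent.P.MP_597c46_an.badSet_bounded n hn,
    Pool.Agent.P.MP_597c46_an.badSet_isGδ n hn, fun f _ hf _ => ?_⟩
  exact Pool.Agent.P.MP_597c46_an.dom_ran_ne_of_isClosed n hn (subdiff f) (isClosed_graph f hf)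

end Pool.Agent.Results.MP_597c46_an.Q1Subdiff
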