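import Mathlib
import Pool.Agent.P.MP_597c46_an.Core

/-!
Negative answer to Q2: for every n at least 2 some nonempty convex subset of Euclidean n-space is
neither the domain nor the range of a maximally monotone operator.
-/

namespace Pool.Agent.Results.MP_597c46_an.Q2MaxMonotone

/-- The graph of a set-valued map `A : ℝ^n ⇉ ℝ^n`. -/
def graph {n : ℕ} (A : EuclideanSpace ℝ (Fin n) → Set (EuclideanSpace ℝ (Fin n))) :
    Set (EuclideanSpace ℝ (Fin n) × EuclideanSpace ℝ (Fin n)) :=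
  {p | p.2 ∈ A p.1}

/-- `A` is monotone: `⟨u - v, x - y⟩ ≥ 0` whenever `u ∈ A x` and `v ∈ A y`. -/
def IsMonotoneOp {n : ℕ} (A : EuclideanSpace ℝ (Fin n) → Set (EuclideanSpace ℝ (Fin n))) : Prop :=
  ∀ x y u v, u ∈ A x → v ∈ A y → 0 ≤ inner ℝ (u - v) (x - y)

/-- `A` is maximally monotone: monotone, and its graph is not properly contained in the graph of
another monotone map. -/
def IsMaxMonotoneOp {n : ℕ} (A : EuclideanSpace ℝ (Fin n) → Set (EuclideanSpace ℝ (Fin n))) :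
    Prop :=
  IsMonotoneOp A ∧ ¬ ∃ B, IsMonotoneOp B ∧ graph A ⊂ graph B

open Set in
theorem isClosed_graph {n : ℕ} (A : EuclideanSpace ℝ (Fin n) → Set (EuclideanSpace ℝ (Fin n)))
    (hA : IsMaxMonotoneOp A) : IsClosed (graph A) := by
  by_contra hcl
  apply hA.2
  refine ⟨fun x => {u | (x, u) ∈ closure (graph A)}, ?_, ?_⟩
  · intro x y u v hu hv
    have hcont : Continuous fun z : (EuclideanSpace ℝ (Fin n) × EuclideanSpace ℝ (Fin n)) ×
        (EuclideanSpace ℝ (Fin n) × EuclideanSpace ℝ (Fin n)) =>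
        inner ℝ (z.1.2 - z.2.2) (z.1.1 - z.2.1) := by fun_prop
    have hsub : graph A ×ˢ graph A ⊆
        {z : (EuclideanSpace ℝ (Fin n) × EuclideanSpace ℝ (Fin n)) ×
          (EuclideanSpace ℝ (Fin n) × EuclideanSpace ℝ (Fin n)) |
          0 ≤ inner ℝ (z.1.2 - z.2.2) (z.1.1 - z.2.1)} :=
      fun z hz => hA.1 _ _ _ _ hz.1 hz.2
    have hmem : ((x, u), (y, v)) ∈ closure (graph A ×ˢ graph A) := by
      rw [closure_prod_eq]
      exact ⟨hu, hv⟩
    exact closure_minimal hsub (isClosed_le continuous_const hcont) hmem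
  · refine ⟨subset_closure, fun h => hcl ?_⟩
    exact closure_subset_iff_isClosed.1 h

theorem result (n : ℕ) (hn : 2 ≤ n) :
    ∃ C : Set (EuclideanSpace ℝ (Fin n)),
      C.Nonempty ∧ Convex ℝ C ∧ Bornology.IsBounded C ∧ IsGδ C ∧
      ∀ A : EuclideanSpace ℝ (Fin n) → Set (EuclideanSpace ℝ (Fin n)),
        IsMaxMonotoneOp A → {x | (A x).Nonempty} ≠ C ∧ (⋃ x, A x) ≠ C := by
  refine ⟨Pool.Agent.P.MP_597c46_an.badSet n hn, Pool.Agent.P.MP_597c46_an.badSet_nonempty n hn,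
    Pool.Agent.P.MP_597c46_an.badSet_convex n hn, Pool.Agent.P.MP_597c46_an.badSet_bounded n hn,
    Pool.Agent.P.MP_597c46_an.badSet_isGδ n hn, fun A hA => ?_⟩
  exact Pool.Agent.P.MP_597c46_an.dom_ran_ne_of_isClosed n hn A (isClosed_graph A hA)

end Pool.Agent.Results.MP_597c46_an.Q2MaxMonotone
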